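import Pool.Agent.MK.AMain

open scoped Pointwise Classical
open Finset

namespace Pool.Agent.Results.MP_49e4a6_co.AlmostAll

open MZ

/-- Almost all graphs: all but an exponentially small fraction of the graphs on `n` labelled
vertices have the largest possible Minkowski dimension `n - 1`. -/
theorem result : ∃ c : ℝ, 0 < c ∧ ∃ N : ℕ, ∀ n ≥ N,
    (((univ : Finset (SimpleGraph (Fin n))).filter (fun G => dimMink (Z G) ≠ n - 1)).card : ℝ) ≤
      Real.exp (-c * n) * Fintype.card (SimpleGraph (Fin n)) :=
  MK.almost_all

end Pool.Agent.Results.MP_49e4a6_co.AlmostAll
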