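import Pool.Agent.MZ.Lower

open scoped Pointwise Classical

namespace Pool.Agent.Results.MP_49e4a6_co.LowerBound

open MZ

/-- A lower bound for the Minkowski dimension of every graphical zonotope: if a subgraph `H` of
`G` induces on `W` a 3-tree in which every triangle lies in at most three complete graphs on four
vertices, then `dimMink (Z G) ≥ |W| - 1`. -/
theorem result (V : Type) [Fintype V] (G H : SimpleGraph V) (W : Finset V) (hHG : H ≤ G)
    (hW : IsTree3 H W) (ht : Thin H W) : W.card ≤ dimMink (Z G) + 1 :=
  lower hHG hW ht

end Pool.Agent.Results.MP_49e4a6_co.LowerBound
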