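import Pool.Agent.MK.Main

open scoped Pointwise Classical

namespace Pool.Agent.Results.MP_49e4a6_co.NoK5Minor

open MZ MK

/-- For every finite graph `G` that contains `K_4` and has no `K_5` minor (in particular for every
planar graph and every graph of treewidth at most three that contains `K_4`),
`dimMink (Z G) + 1` is the largest number of vertices of a 3-tree induced by `G` in which every
triangle lies in at most three complete graphs on four vertices. -/
theorem result (V : Type) [Fintype V] (G : SimpleGraph V)
    (hG : ¬ IsMinor (⊤ : SimpleGraph (Fin 5)) G) (h4 : ¬ G.CliqueFree 4) :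
    IsGreatest {k : ℕ | ∃ W : Finset V, IsTree3 G W ∧ Thin G W ∧ k = W.card}
      (dimMink (Z G) + 1) :=
  value_noK5 hG h4

end Pool.Agent.Results.MP_49e4a6_co.NoK5Minor
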