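import Pool.Agent.MZ.Main

open scoped Pointwise Classical

namespace Pool.Agent.Results.MP_49e4a6_co.UpperBound

open MZ

/-- An upper bound for the Minkowski dimension of every graphical zonotope: there is a set `W`
of at least `dimMink (Z G) + 1` vertices such that for every `X ⊆ W` the number of components of
`G[W \ X]` is at most `1 + N(X) - D(X)`. -/
theorem result (V : Type) [Fintype V] (G : SimpleGraph V) (hG : G ≠ ⊥) :
    ∃ W : Finset V, dimMink (Z G) + 1 ≤ W.card ∧
      ∀ X ⊆ W, comps G (W \ X) + numCl G X ≤ numFl G X + 1 :=
  upper_bound hG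

end Pool.Agent.Results.MP_49e4a6_co.UpperBound
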